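import Mathlib

/-!
# Fractional dimension of the convex geometries `P(k,n)`

For every `k ≥ 1` and every `n` the fractional dimension of `P(k,n)` is at most
`(k+1)^(k+1)/k^k`.  For `k ≥ 2` this number is smaller than `2^(k+1)`, so the limit of
`fdim (P(k,n))` cannot be `2^(k+1)`.

Idea: take a random set `S` of high points, each point being high with probability
`1/(k+1)`, and let `L_S` be a linear extension in which the members are sorted first by
the largest high point they contain.
-/

namespace Pool.Agent.Results.MP_4df60b_co.ExponentFails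

open Finset

/-- Membership of a set `A` in the family `P(k,n)` : `A ⊆ [n]`, and whenever
`|A| = k + i - 1` we have `[i-1] ⊆ A`. -/
def Mem (k n : ℕ) (A : Finset ℕ) : Prop :=
  A ⊆ Finset.Icc 1 n ∧ ∀ i : ℕ, A.card + 1 = k + i → Finset.Icc 1 (i - 1) ⊆ A

/-- The poset `P(k,n)`, ordered by inclusion. -/
abbrev P (k n : ℕ) : Type := {A : Finset ℕ // Mem k n A}

instance (k n : ℕ) : Finite (P k n) := by
  have h : Set.Finite {A : Finset ℕ | Mem k n A} := by
    refine ((Finset.Icc 1 n).powerset.finite_toSet).subset ?_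
    intro A hA
    exact Finset.mem_coe.mpr (Finset.mem_powerset.mpr hA.1)
  exact h.to_subtype

noncomputable instance (k n : ℕ) : Fintype (P k n) := Fintype.ofFinite _

/-- Linear extensions of a finite poset `X`: monotone bijections onto `{0, …, |X|-1}`. -/
def LinExt (X : Type) [Fintype X] [PartialOrder X] : Type :=
  {e : X ≃ Fin (Fintype.card X) // ∀ a b : X, a ≤ b → e a ≤ e b}

instance (X : Type) [Fintype X] [PartialOrder X] : Finite (LinExt X) :=
  inferInstanceAs (Finite {e : X ≃ Fin (Fintype.card X) // ∀ a b : X, a ≤ b → e a ≤ e b})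

noncomputable instance (X : Type) [Fintype X] [PartialOrder X] : Fintype (LinExt X) :=
  Fintype.ofFinite _

open Classical in
/-- Fractional realizers: nonnegative weights on the linear extensions such that for every
ordered pair `(a,b)` of incomparable elements the linear extensions with `a > b` have total
weight at least `1`. -/
def IsRealizer {X : Type} [Fintype X] [PartialOrder X] (w : LinExt X → ℝ) : Prop :=
  (∀ L, 0 ≤ w L) ∧
    ∀ a b : X, ¬ a ≤ b → ¬ b ≤ a →
      1 ≤ ∑ L ∈ (Finset.univ : Finset (LinExt X)).filter (fun L => L.1 b < L.1 a), w L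

open Classical in
/-- The fractional dimension of a finite poset (equal to `1` for a chain). -/
noncomputable def fdim (X : Type) [Fintype X] [PartialOrder X] : ℝ :=
  if (∀ a b : X, a ≤ b ∨ b ≤ a) then 1
  else sInf {s : ℝ | ∃ w : LinExt X → ℝ, IsRealizer w ∧ s = ∑ L, w L}

/-- a linear extension sorted first by a monotone key -/
lemma exists_ext (X : Type) [Fintype X] [PartialOrder X] (key : X → ℕ)
    (hk : ∀ a b, a ≤ b → key a ≤ key b) :
    ∃ L : LinExt X, ∀ a b, key a < key b → L.1 a < L.1 b := by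
  classical
  let g : X → ℕ ×ₗ LinearExtension X := fun a => toLex (key a, toLinearExtension a)
  have hg : Function.Injective g := by
    intro a b h
    have h2 : (ofLex (g a)).2 = (ofLex (g b)).2 := by rw [h]
    exact h2
  let s : Finset (ℕ ×ₗ LinearExtension X) := Finset.univ.image g
  have hs : s.card = Fintype.card X := by
    rw [Finset.card_image_of_injective _ hg, Finset.card_univ]
  have hmem : ∀ a, g a ∈ s := fun a => Finset.mem_image_of_mem _ (Finset.mem_univ a)
  let e1 : X ≃ s := Equiv.ofBijective (fun a => (⟨g a, hmem a⟩ : s)) (by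
    constructor
    · intro a b h
      exact hg (congrArg Subtype.val h)
    · rintro ⟨y, hy⟩
      obtain ⟨a, -, ha⟩ := Finset.mem_image.mp hy
      exact ⟨a, Subtype.ext ha⟩)
  let e : X ≃ Fin (Fintype.card X) := e1.trans (s.orderIsoOfFin hs).symm.toEquiv
  have hle : ∀ a b, e a ≤ e b ↔ g a ≤ g b := by
    intro a b
    have : e a ≤ e b ↔ e1 a ≤ e1 b := (s.orderIsoOfFin hs).symm.le_iff_le
    rw [this]
    exact Iff.rfl
  refine ⟨⟨e, ?_⟩, ?_⟩
  · intro a b hab
    rw [hle]
    refine Prod.Lex.toLex_mono ?_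
    exact ⟨hk a b hab, toLinearExtension.monotone hab⟩
  · intro a b hab
    show e a < e b
    rw [← not_le, hle, not_le]
    exact Prod.Lex.toLex_lt_toLex.mpr (Or.inl hab)

/-- the high part key -/
def key (S : Finset ℕ) (A : Finset ℕ) : ℕ := (A ∩ S).sup id

lemma key_mono (S : Finset ℕ) {A B : Finset ℕ} (h : A ⊆ B) : key S A ≤ key S B :=
  Finset.sup_mono (Finset.inter_subset_inter_right h)

/-- A member of `P(k,n)` which misses `x` has at most `k` points beyond `x`. -/
lemma card_beyond {k n : ℕ} {B : Finset ℕ} (hB : Mem k n B) {x : ℕ} (hx1 : 1 ≤ x)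
    (hx : x ∉ B) : (B.filter (fun z => x < z)).card ≤ k := by
  by_contra hcon
  push Not at hcon
  have hle : (B.filter (fun z => x < z)).card ≤ B.card := Finset.card_filter_le _ _
  -- i with card B + 1 = k + i
  obtain ⟨i, hi⟩ : ∃ i, B.card + 1 = k + i := ⟨B.card + 1 - k, by omega⟩
  have hsub := hB.2 i hi
  have hix : i - 1 < x := by
    by_contra h
    push Not at h
    exact hx (hsub (Finset.mem_Icc.mpr ⟨hx1, h⟩))
  have hdis : Disjoint (Finset.Icc 1 (i - 1)) (B.filter (fun z => x < z)) := by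
    rw [Finset.disjoint_left]
    intro z hz hz2
    have h1 := (Finset.mem_Icc.mp hz).2
    have h2 := (Finset.mem_filter.mp hz2).2
    omega
  have hun : Finset.Icc 1 (i - 1) ∪ B.filter (fun z => x < z) ⊆ B :=
    Finset.union_subset hsub (Finset.filter_subset _ _)
  have hc := Finset.card_le_card hun
  rw [Finset.card_union_of_disjoint hdis, Nat.card_Icc] at hc
  omega

/-- weight of a set of high points -/
noncomputable def wt (n : ℕ) (p : ℝ) (S : Finset ℕ) : ℝ :=
  (∏ _i ∈ S, p) * ∏ _i ∈ (Finset.Icc 1 n) \ S, (1 - p)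

lemma wt_nonneg {n : ℕ} {p : ℝ} (h0 : 0 ≤ p) (h1 : p ≤ 1) (S : Finset ℕ) : 0 ≤ wt n p S := by
  unfold wt
  refine mul_nonneg (Finset.prod_nonneg fun _ _ => h0) (Finset.prod_nonneg fun _ _ => ?_)
  linarith

lemma sum_wt (n : ℕ) (p : ℝ) : ∑ S ∈ (Finset.Icc 1 n).powerset, wt n p S = 1 := by
  unfold wt
  rw [← Finset.prod_add]
  simp

/-- the probability that `x` is high and no point of `Y` is high -/
lemma sum_wt_event {n : ℕ} {p : ℝ} {x : ℕ} (hx : x ∈ Finset.Icc 1 n)
    {Y : Finset ℕ} (hY : Y ⊆ Finset.Icc 1 n) (hxY : x ∉ Y) :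
    p * (1 - p) ^ Y.card ≤
      ∑ S ∈ (Finset.Icc 1 n).powerset.filter (fun S => x ∈ S ∧ Disjoint Y S), wt n p S := by
  classical
  let f : ℕ → ℝ := fun z => if z ∈ Y then 0 else p
  let g : ℕ → ℝ := fun z => if z = x then 0 else 1 - p
  have hprod : ∏ z ∈ Finset.Icc 1 n, (f z + g z) = p * (1 - p) ^ Y.card := by
    have hins : insert x Y ⊆ Finset.Icc 1 n := Finset.insert_subset hx hY
    rw [← Finset.prod_subset hins]
    · rw [Finset.prod_insert hxY]
      have e1 : f x + g x = p := by simp [f, g, hxY]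
      rw [e1]
      congr 1
      rw [Finset.prod_congr rfl (g := fun _ => 1 - p)]
      · simp
      · intro z hz
        have hzx : z ≠ x := fun h => hxY (h ▸ hz)
        simp [f, g, hz, hzx]
    · intro z _ hz
      rw [Finset.mem_insert, not_or] at hz
      simp [f, g, hz.1, hz.2]
  rw [← hprod, Finset.prod_add, Finset.sum_filter]
  refine Finset.sum_le_sum fun S _ => ?_
  split_ifs with h
  · unfold wt
    refine le_of_eq ?_
    congr 1
    · refine Finset.prod_congr rfl fun z hz => ?_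
      have : z ∉ Y := fun hzY => (Finset.disjoint_left.mp h.2 hzY) hz
      simp [f, this]
    · refine Finset.prod_congr rfl fun z hz => ?_
      have : z ≠ x := by
        rintro rfl
        exact (Finset.mem_sdiff.mp hz).2 h.1
      simp [g, this]
  · rw [not_and_or] at h
    rcases h with h | h
    · have : ∏ z ∈ Finset.Icc 1 n \ S, g z = 0 := by
        refine Finset.prod_eq_zero (Finset.mem_sdiff.mpr ⟨hx, h⟩) ?_
        simp [g]
      rw [this, mul_zero]
    · obtain ⟨z, hzY, hzS⟩ := Finset.not_disjoint_iff.mp h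
      have : ∏ z ∈ S, f z = 0 := by
        refine Finset.prod_eq_zero hzS ?_
        simp [f, hzY]
      rw [this, zero_mul]

/-- **Upper bound.** `fdim (P(k,n)) ≤ (k+1)^(k+1) / k^k`. -/
theorem fdim_le (k n : ℕ) (hk : 1 ≤ k) :
    fdim (P k n) ≤ ((k : ℝ) + 1) ^ (k + 1) / (k : ℝ) ^ k := by
  classical
  have hk0 : (0 : ℝ) < k := by exact_mod_cast hk
  have hpos : (0 : ℝ) < (k : ℝ) ^ k := by positivity
  unfold fdim
  split_ifs with hch
  · rw [le_div_iff₀ hpos, one_mul]
    calc (k : ℝ) ^ k ≤ ((k : ℝ) + 1) ^ k := pow_le_pow_left₀ hk0.le (by linarith) _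
      _ ≤ ((k : ℝ) + 1) ^ (k + 1) := pow_le_pow_right₀ (by linarith) (Nat.le_succ k)
  · -- the random realizer
    set p : ℝ := 1 / ((k : ℝ) + 1) with hp
    have hp0 : 0 ≤ p := by positivity
    have hp1 : p ≤ 1 := by
      rw [hp, div_le_one (by positivity)]; linarith
    set q : ℝ := p * (1 - p) ^ k with hq
    have h1p : 1 - p = (k : ℝ) / ((k : ℝ) + 1) := by
      rw [hp]; field_simp; ring
    have hqv : q = (k : ℝ) ^ k / ((k : ℝ) + 1) ^ (k + 1) := by
      rw [hq, h1p, hp, div_pow, pow_succ]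
      field_simp
    have hqpos : 0 < q := by rw [hqv]; positivity
    choose LS hLS using fun S : Finset ℕ =>
      exists_ext (P k n) (fun A => key S A.1) (fun a b hab => key_mono S hab)
    let U := (Finset.Icc 1 n).powerset
    let w : LinExt (P k n) → ℝ := fun L => q⁻¹ * ∑ S ∈ U.filter (fun S => LS S = L), wt n p S
    have hw0 : ∀ L, 0 ≤ w L := fun L =>
      mul_nonneg (inv_nonneg.mpr hqpos.le) (Finset.sum_nonneg fun S _ => wt_nonneg hp0 hp1 S)
    have hsumL : ∀ F : Finset (LinExt (P k n)),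
        ∑ L ∈ F, w L = q⁻¹ * ∑ S ∈ U.filter (fun S => LS S ∈ F), wt n p S := by
      intro F
      rw [← Finset.mul_sum]
      congr 1
      simp only [Finset.sum_filter]
      rw [Finset.sum_comm]
      refine Finset.sum_congr rfl fun S _ => ?_
      rw [Finset.sum_ite_eq]
    have htot : ∑ L, w L = ((k : ℝ) + 1) ^ (k + 1) / (k : ℝ) ^ k := by
      rw [hsumL]
      have : U.filter (fun S => LS S ∈ (Finset.univ : Finset (LinExt (P k n)))) = U := by
        simp
      rw [this, sum_wt, mul_one, hqv, inv_div]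
    have hreal : IsRealizer w := by
      refine ⟨hw0, ?_⟩
      intro a b hab _
      -- a point of `a` outside `b`
      have : ∃ x ∈ a.1, x ∉ b.1 := by
        by_contra hcon
        push Not at hcon
        exact hab hcon
      obtain ⟨x, hxa, hxb⟩ := this
      have hx : x ∈ Finset.Icc 1 n := a.2.1 hxa
      have hx1 : 1 ≤ x := (Finset.mem_Icc.mp hx).1
      set Y := b.1.filter (fun z => x < z) with hY
      have hYc : Y.card ≤ k := card_beyond b.2 hx1 hxb
      have hYs : Y ⊆ Finset.Icc 1 n := (Finset.filter_subset _ _).trans b.2.1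
      have hxY : x ∉ Y := fun h => hxb (Finset.filter_subset _ _ h)
      have hev := sum_wt_event (p := p) hx hYs hxY
      rw [hsumL]
      have hsub : (U.filter (fun S => x ∈ S ∧ Disjoint Y S)) ⊆
          U.filter (fun S => LS S ∈ (Finset.univ : Finset (LinExt (P k n))).filter
            (fun L => L.1 b < L.1 a)) := by
        intro S hS
        rw [Finset.mem_filter] at hS ⊢
        refine ⟨hS.1, ?_⟩
        rw [Finset.mem_filter]
        refine ⟨Finset.mem_univ _, ?_⟩
        refine hLS S b a ?_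
        have hka : x ≤ key S a.1 := by
          have : x ∈ a.1 ∩ S := Finset.mem_inter.mpr ⟨hxa, hS.2.1⟩
          exact Finset.le_sup (f := id) this
        have hkb : key S b.1 < x := by
          refine (Finset.sup_lt_iff (show (⊥ : ℕ) < x from hx1)).mpr ?_
          intro z hz
          obtain ⟨hzb, hzS⟩ := Finset.mem_inter.mp hz
          show z < x
          by_contra hzx
          push Not at hzx
          rcases Nat.lt_or_ge x z with h | h
          · exact (Finset.disjoint_left.mp hS.2.2 (Finset.mem_filter.mpr ⟨hzb, h⟩)) hzS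
          · have : z = x := le_antisymm h hzx
            exact hxb (this ▸ hzb)
        exact lt_of_lt_of_le hkb hka
      have hmono : ∑ S ∈ U.filter (fun S => x ∈ S ∧ Disjoint Y S), wt n p S ≤
          ∑ S ∈ U.filter (fun S => LS S ∈ (Finset.univ : Finset (LinExt (P k n))).filter
            (fun L => L.1 b < L.1 a)), wt n p S :=
        Finset.sum_le_sum_of_subset_of_nonneg hsub fun S _ _ => wt_nonneg hp0 hp1 S
      have hq' : q ≤ p * (1 - p) ^ Y.card := by
        rw [hq]
        refine mul_le_mul_of_nonneg_left ?_ hp0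
        exact pow_le_pow_of_le_one (by linarith) (by linarith) hYc
      have hfin : q ≤ ∑ S ∈ U.filter (fun S => LS S ∈
          (Finset.univ : Finset (LinExt (P k n))).filter (fun L => L.1 b < L.1 a)), wt n p S :=
        hq'.trans (hev.trans hmono)
      calc (1 : ℝ) = q⁻¹ * q := (inv_mul_cancel₀ hqpos.ne').symm
        _ ≤ _ := mul_le_mul_of_nonneg_left hfin (inv_nonneg.mpr hqpos.le)
    refine csInf_le ?_ ⟨w, hreal, htot.symm⟩
    refine ⟨0, ?_⟩
    rintro s ⟨v, hv, rfl⟩
    exact Finset.sum_nonneg fun L _ => hv.1 L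

/-- `(k+1)^(k+1) / k^k < 2^(k+1)` for `k ≥ 2` -/
lemma bound_lt (k : ℕ) (hk : 2 ≤ k) :
    ((k : ℝ) + 1) ^ (k + 1) / (k : ℝ) ^ k < 2 ^ (k + 1) := by
  have key1 : ∀ m : ℕ, 2 ≤ m → (m + 1) ^ (m + 1) < 2 ^ (m + 1) * m ^ m := by
    intro m hm
    induction m, hm using Nat.le_induction with
    | base => norm_num
    | succ m hm ih =>
      have hmm : 0 < m ^ m := pow_pos (by omega) m
      have e1 : (m + 2) ^ (m + 2) * m ^ m ≤ (m + 2) ^ 2 * ((m + 1) ^ 2) ^ m := by
        have : (m + 2) ^ (m + 2) * m ^ m = (m + 2) ^ 2 * ((m + 2) * m) ^ m := by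
          rw [mul_pow, pow_add]; ring
        rw [this]
        exact Nat.mul_le_mul_left _ (Nat.pow_le_pow_left (by nlinarith) m)
      have e2 : (m + 2) ^ 2 ≤ 2 * (m + 1) ^ 2 := by nlinarith
      have e3 : (m + 2) ^ 2 * ((m + 1) ^ 2) ^ m ≤ 2 * (m + 1) ^ (m + 1) * (m + 1) ^ (m + 1) := by
        calc (m + 2) ^ 2 * ((m + 1) ^ 2) ^ m ≤ (2 * (m + 1) ^ 2) * ((m + 1) ^ 2) ^ m :=
              Nat.mul_le_mul_right _ e2
          _ = 2 * (m + 1) ^ (m + 1) * (m + 1) ^ (m + 1) := by
              rw [← pow_mul, mul_assoc, ← pow_add, mul_assoc, ← pow_add]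
              congr 2
              ring
      have e4 : 2 * (m + 1) ^ (m + 1) * (m + 1) ^ (m + 1) <
          2 * (m + 1) ^ (m + 1) * (2 ^ (m + 1) * m ^ m) :=
        Nat.mul_lt_mul_of_pos_left ih (by positivity)
      have e5 : (m + 2) ^ (m + 2) * m ^ m < (2 ^ (m + 2) * (m + 1) ^ (m + 1)) * m ^ m := by
        calc (m + 2) ^ (m + 2) * m ^ m ≤ _ := e1
          _ ≤ _ := e3
          _ < _ := e4
          _ = (2 ^ (m + 2) * (m + 1) ^ (m + 1)) * m ^ m := by ring
      exact Nat.lt_of_mul_lt_mul_right e5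
  have hk0 : (0 : ℝ) < (k : ℝ) ^ k := by
    have : (0 : ℝ) < k := by exact_mod_cast (by omega : 0 < k)
    positivity
  rw [div_lt_iff₀ hk0]
  exact_mod_cast key1 k hk

/-- **Main result.**  For all `k ≥ 1` and `n`, `fdim (P(k,n)) ≤ (k+1)^(k+1)/k^k`; for every
`k ≥ 2` this bound is smaller than `2^(k+1)`, so that `fdim (P(k,n))` stays away from
`2^(k+1)` for all `n`; in particular the statement asked for in Q1 is false. -/
theorem result :
    (∀ k n : ℕ, 1 ≤ k → fdim (P k n) ≤ ((k : ℝ) + 1) ^ (k + 1) / (k : ℝ) ^ k) ∧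
    (∀ k : ℕ, 2 ≤ k → ∃ ε : ℝ, 0 < ε ∧ ∀ n : ℕ, fdim (P k n) ≤ 2 ^ (k + 1) - ε) ∧
    ¬ (∀ k : ℕ, 1 ≤ k → ∀ ε : ℝ, 0 < ε → ∃ n₀ : ℕ, ∀ n : ℕ, k + 2 ≤ n → n₀ ≤ n →
        2 ^ (k + 1) - ε < fdim (P k n)) := by
  have h2 : ∀ k : ℕ, 2 ≤ k → ∃ ε : ℝ, 0 < ε ∧ ∀ n : ℕ, fdim (P k n) ≤ 2 ^ (k + 1) - ε := by
    intro k hk
    refine ⟨2 ^ (k + 1) - ((k : ℝ) + 1) ^ (k + 1) / (k : ℝ) ^ k, ?_, ?_⟩
    · have := bound_lt k hk
      linarith
    · intro n
      have := fdim_le k n (by omega)
      linarith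
  refine ⟨fdim_le, h2, ?_⟩
  intro h
  obtain ⟨ε, hε, hb⟩ := h2 2 le_rfl
  obtain ⟨n₀, hn₀⟩ := h 2 (by norm_num) ε hε
  have h3 := hn₀ (max n₀ 4) (le_max_right _ _) (le_max_left _ _)
  have h4 := hb (max n₀ 4)
  linarith

end Pool.Agent.Results.MP_4df60b_co.ExponentFails
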